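import Pool.Agent.EDX.Stmts4

/-!
# Squad EDX, row CSB (helper32): case B of the main theorem
-/

set_option autoImplicit false

namespace Pool.Agent.EDX.H32

open Polynomial Finset Pool.Agent.EDG Pool.Agent.EDX Module

/-- **Row CSB** -/
theorem csb (htad : TadStmt) (harc : ArcStmt) (hbn : Bn2Stmt) : CsbStmt := by
  intro q₀ hq₀
  obtain ⟨C₁, hC₁, hA⟩ := harc q₀ hq₀
  refine ⟨C₁, hC₁, ?_⟩
  intro n g hc m q hm hqn hD
  obtain ⟨β, σ, hβ, hinj, hσ, hcard, hdet⟩ := htad n g hc q (q₀ * m) hqn hD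
  have h1 := hA m n q (Fin n × Fin g.natDegree)
    (fun x => (β x.2, it (β x.2) (-β x.2) (x.1 : ℕ))) σ hm
    (fun x => (hbn n g hc (β x.2) (hβ x.2)).2 (x.1 : ℕ)) hinj hσ
  have h2 : Real.log 2 * (g.natDegree * ((n : ℝ) * (n - 1) / 2)) ≤
      Real.log ‖(Matrix.of fun x y : Fin n × Fin g.natDegree => (2 * β x.2) ^ (σ y).1 *
          ev (β x.2) (it (β x.2) (-β x.2) (x.1 : ℕ)) (h (σ y).2)).det‖ := by
    have h3 := Real.log_le_log (by positivity) hdet
    rw [Real.log_pow] at h3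
    refine le_trans (le_of_eq ?_) h3
    have h4 : ((n * (n - 1) / 2 : ℕ) : ℝ) = (n : ℝ) * (n - 1) / 2 := by
      rw [Nat.cast_div (Nat.even_mul_pred_self n).two_dvd (by norm_num), Nat.cast_mul,
        Nat.cast_pred hc.npos]
      norm_num
    rw [Nat.cast_mul, h4]
    ring
  have h5 : (Fintype.card (Fin n × Fin g.natDegree) : ℝ) = n * g.natDegree := by
    rw [Fintype.card_prod, Fintype.card_fin, Fintype.card_fin, Nat.cast_mul]
  have h6 : ((univ.filter fun x => q ≤ (σ x).1).card : ℝ) ≤ finrank ℚ (LQ n g q (q₀ * m)) := by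
    exact_mod_cast hcard
  have h7 : (n : ℝ) * Real.log 4 * ((univ.filter fun x => q ≤ (σ x).1).card : ℝ) ≤
      n * Real.log 4 * finrank ℚ (LQ n g q (q₀ * m)) :=
    mul_le_mul_of_nonneg_left h6 (mul_nonneg (Nat.cast_nonneg _) (Real.log_nonneg (by norm_num)))
  rw [h5] at h1
  refine h2.trans (h1.trans ?_)
  linarith

end Pool.Agent.EDX.H32
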