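import Pool.Agent.EDX.Stmts2
import Pool.Agent.Helper24_EDG.MOA
import Pool.Agent.Helper60_EDG.MOB

/-!
# Squad EDX, row MDB (helper32)
-/

set_option autoImplicit false

namespace Pool.Agent.EDX.H32

open Polynomial Finset Pool.Agent.EDG Pool.Agent.EDX Module

theorem it_two {R : Type} [CommRing R] (h2 : (2 : R) = 0) (b y : R) (i : ℕ) :
    it b y i = y ^ 2 ^ i := by
  induction i with
  | zero => rw [it_zero, pow_zero, pow_one]
  | succ i ih =>
    rw [it_succ, ih, h2, show 2 ^ (i + 1) = 2 ^ i * 2 from pow_succ 2 i, pow_mul]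
    ring

theorem ev_h_two {R : Type} [CommRing R] (h2 : (2 : R) = 0) (b : R) (e : ℕ) :
    ∀ y : R, ev b y (h e) = y ^ e := by
  induction e using Nat.strong_induction_on with
  | _ e ih =>
    intro y
    rcases Nat.even_or_odd' e with ⟨k, hk | hk⟩
    · rcases Nat.eq_zero_or_pos k with h0 | h0
      · subst h0; subst hk; simp [h_zero]
      · rw [hk, h_two_mul, ev_comp_F, ih k (by omega), h2, pow_mul]
        congr 1
        ring
    · rw [hk, h_two_mul_add_one, map_mul, ev_X, ev_comp_F, ih k (by omega), h2]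
      have h3 : y ^ 2 + 0 * b * y = y ^ 2 := by ring
      rw [h3]; ring

theorem two_FF : (2 : FF) = 0 := by
  have : CharP FF 2 := AlgebraicClosure.instCharP (ZMod 2)
  exact CharTwo.two_eq_zero

theorem mem_rts {n : ℕ} {g : ℤ[X]} (hc : Cyc n g) (θ : FF) :
    θ ∈ rts g ↔ (g.map (Int.castRingHom FF)).eval θ = 0 := by
  classical
  unfold rts
  rw [Multiset.mem_toFinset, mem_roots (hc.monic.map _).ne_zero, IsRoot.def]

theorem card_rts {n : ℕ} {g : ℤ[X]} (hc : Cyc n g) : (rts g).card = g.natDegree := by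
  classical
  have h1 := (Pool.Agent.EDG.H60.mob Pool.Agent.EDG.H24.moa n g hc).1
  have h2 : (g.map (Int.castRingHom FF)).Separable := by
    have h3 := h1.map (f := algebraMap (ZMod 2) FF)
    rw [Polynomial.map_map] at h3
    have h4 : (algebraMap (ZMod 2) FF).comp (Int.castRingHom (ZMod 2)) = Int.castRingHom FF :=
      RingHom.ext_int _ _
    rwa [h4] at h3
  unfold rts
  rw [Multiset.toFinset_card_of_nodup (nodup_roots h2),
    (splits_iff_card_roots.1 (IsAlgClosed.splits (g.map (Int.castRingHom FF)))),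
    hc.monic.natDegree_map]

theorem Lg_eval_self {g : ℤ[X]} {θ : FF} (hθ : θ ∈ rts g) : (Lg g θ).eval θ = 1 := by
  classical
  exact Lagrange.eval_basis_self (v := id) (fun a _ b _ h => h) hθ

theorem Lg_eval_ne {g : ℤ[X]} {θ ξ : FF} (hξ : ξ ∈ rts g) (h : θ ≠ ξ) : (Lg g θ).eval ξ = 0 := by
  classical
  exact Lagrange.eval_basis_of_ne (v := id) h hξ

theorem Lg_degree_lt {n : ℕ} {g : ℤ[X]} (hc : Cyc n g) {θ : FF} (hθ : θ ∈ rts g) :
    (Lg g θ).degree < (g.natDegree : WithBot ℕ) := by
  classical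
  have h1 : (Lg g θ).degree = ((rts g).card - 1 : ℕ) :=
    Lagrange.degree_basis (v := id) (fun a _ b _ h => h) hθ
  rw [h1, card_rts hc]
  have := hc.natDegree_pos
  exact_mod_cast (by omega : g.natDegree - 1 < g.natDegree)

theorem NP_eval {n : ℕ} {g : ℤ[X]} (hc : Cyc n g) (P : Fin n × Fin g.natDegree → FF) (e : ℕ)
    {η : FF} (hη : η ∈ rts g) :
    (NP FF n g P e).eval η = ∑ i : Fin n, (pol P i).eval η * (η ^ (2 ^ (i : ℕ))) ^ e := by
  have hr : (g.map (Int.castRingHom FF)).eval η = 0 := (mem_rts hc η).1 hη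
  unfold NP
  have hm : ∀ q : FF[X], (q %ₘ g.map (Int.castRingHom FF)).eval η = q.eval η := fun q =>
    eval₂_modByMonic_eq_self_of_root (f := RingHom.id FF) hr
  rw [hm, eval_finsetSum]
  refine sum_congr rfl fun i _ => ?_
  rw [eval_mul, mul_comm]
  congr 1
  have h1 := aeval_ev η (Yp i) (h e)
  rw [aeval_Yp, it_two two_FF, ev_h_two two_FF] at h1
  rw [eval_map]
  refine h1.trans ?_
  congr 1
  have h2 : (-η : FF) = η := by
    have h3 : (2 : FF) * η = 0 := by rw [two_FF, zero_mul]
    linear_combination -h3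
  rw [h2]

/-- **Row MDB** -/
theorem mdb : MdbStmt := by
  classical
  intro n g hc P f r hf
  have hfe : ∀ a : FF[X], f.eval a = ∑ e ∈ range r, f.coeff e * a ^ e := fun a =>
    eval_eq_sum_range' hf a
  have key : ∀ e, NP FF n g P e = ∑ θ ∈ rts g, ∑ i : Fin n,
      C ((pol P i).eval θ) * Lg g θ * (C (θ ^ (2 ^ (i : ℕ)))) ^ e := by
    intro e
    refine eq_of_degrees_lt_of_eval_finset_eq (rts g) ?_ ?_ ?_
    · rw [card_rts hc]; exact NP_degree_lt FF n g hc.monic P e
    · rw [card_rts hc]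
      refine lt_of_le_of_lt (degree_sum_le _ _) ?_
      rw [Finset.sup_lt_iff (WithBot.bot_lt_coe _)]
      intro θ hθ
      refine lt_of_le_of_lt (degree_sum_le _ _) ?_
      rw [Finset.sup_lt_iff (WithBot.bot_lt_coe _)]
      intro i _
      have h1 : C ((pol P i).eval θ) * Lg g θ * (C (θ ^ (2 ^ (i : ℕ)))) ^ e =
          ((pol P i).eval θ * (θ ^ (2 ^ (i : ℕ))) ^ e) • Lg g θ := by
        rw [smul_eq_C_mul, C_mul, C_pow (n := e)]; ring
      rw [h1]
      exact lt_of_le_of_lt (degree_smul_le _ _) (Lg_degree_lt hc hθ)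
    · intro η hη
      rw [NP_eval hc P e hη, eval_finsetSum, Finset.sum_eq_single_of_mem η hη]
      · rw [eval_finsetSum]
        refine sum_congr rfl fun i _ => ?_
        rw [eval_mul, eval_mul, eval_C, Lg_eval_self hη, mul_one, eval_pow, eval_C]
      · intro θ _ hθ
        rw [eval_finsetSum]
        refine sum_eq_zero fun i _ => ?_
        rw [eval_mul, eval_mul, Lg_eval_ne hη hθ, mul_zero, zero_mul]
  calc ∑ e ∈ range r, f.coeff e * NP FF n g P e
      = ∑ e ∈ range r, ∑ θ ∈ rts g, ∑ i : Fin n, C ((pol P i).eval θ) * Lg g θ *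
          (f.coeff e * (C (θ ^ (2 ^ (i : ℕ)))) ^ e) := by
        refine sum_congr rfl fun e _ => ?_
        rw [key e, mul_sum]
        refine sum_congr rfl fun θ _ => ?_
        rw [mul_sum]
        refine sum_congr rfl fun i _ => ?_
        ring
    _ = _ := by
        rw [sum_comm]
        refine sum_congr rfl fun θ _ => ?_
        rw [sum_comm]
        refine sum_congr rfl fun i _ => ?_
        rw [hfe, mul_sum]

end Pool.Agent.EDX.H32
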